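import Mathlib

open Set Filter Topology InnerProductSpace ContinuousLinearMap
open scoped InnerProductSpace

namespace Pool.Agent.Results.MP_9e58cf_an.Fails

variable {H : Type} [NormedAddCommGroup H] [InnerProductSpace ℂ H] [CompleteSpace H]

/-- `A` is of trace class: `|A|` has finite trace in some orthonormal basis -/
def TraceClass (A : H →L[ℂ] H) : Prop :=
  ∃ (ι : Type) (b : HilbertBasis ι ℂ H), Summable fun i => (⟪b i, CFC.abs A (b i)⟫_ℂ).re

/-- the WOT-closure of the linear span of the resolvents `(T - z)⁻¹`, `z ∉ σ(T)` -/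
def resSpan (T : H →L[ℂ] H) : Set (H →L[ℂ] H) :=
  {S | ContinuousLinearMapWOT.ofCLM S ∈ closure (ContinuousLinearMapWOT.ofCLM ''
    (Submodule.span ℂ {R | ∃ z ∉ spectrum ℂ T, R = Ring.inverse (T - algebraMap ℂ _ z)} :
      Set (H →L[ℂ] H)))}

lemma tc_of {ι : Type} (b : HilbertBasis ι ℂ H) (A : H →L[ℂ] H)
    (h : Summable fun i => ‖A (b i)‖) : TraceClass A := by
  refine ⟨ι, b, h.of_norm_bounded fun i => ?_⟩
  have hs : star (CFC.abs A) = CFC.abs A := (CFC.abs_nonneg A).star_eq
  have e : ‖CFC.abs A (b i)‖ = ‖A (b i)‖ := by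
    have h1 : ⟪CFC.abs A (b i), CFC.abs A (b i)⟫_ℂ = ⟪A (b i), A (b i)⟫_ℂ := by
      rw [← adjoint_inner_right, ← adjoint_inner_right A, ← star_eq_adjoint, ← star_eq_adjoint, hs]
      exact congrArg (fun B : H →L[ℂ] H => ⟪b i, B (b i)⟫_ℂ) (CFC.abs_mul_abs A)
    rw [inner_self_eq_norm_sq_to_K, inner_self_eq_norm_sq_to_K] at h1
    exact (pow_left_inj₀ (norm_nonneg _) (norm_nonneg _) two_ne_zero).1 (by exact_mod_cast h1)
  refine (Complex.abs_re_le_norm _).trans ((norm_inner_le_norm _ _).trans ?_)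
  rw [b.orthonormal.1 i, one_mul, e]

noncomputable def w (n : ℤ) : ℝ := (1 / 2) ^ n.natAbs

lemma w_pos (n : ℤ) : 0 < w n := by unfold w; positivity

lemma w_sum : Summable w :=
  Summable.of_nat_of_neg (by simpa [w] using summable_geometric_two)
    (by simpa [w] using summable_geometric_two)

variable (b : HilbertBasis (Option ℤ) ℂ H)

noncomputable def K : H →L[ℂ] H :=
  ∑' n : ℤ, (w n : ℂ) • rankOne ℂ (b (some (n + 1))) (b (some n))

lemma K_sum (x y : H) : HasSum (fun n : ℤ => (w n : ℂ) * (⟪b (some n), x⟫_ℂ *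
    ⟪y, b (some (n + 1))⟫_ℂ)) ⟪y, K b x⟫_ℂ := by
  have h : Summable fun n : ℤ => (w n : ℂ) • rankOne ℂ (b (some (n + 1))) (b (some n)) :=
    w_sum.of_norm_bounded fun n => by
      simp [norm_smul, b.orthonormal.1, abs_of_pos (w_pos n)]
  have := h.hasSum.mapL ((innerSL ℂ y).comp (ContinuousLinearMap.apply ℂ H x))
  simpa [K, inner_smul_right] using this

lemma ob (i j : Option ℤ) : ⟪b i, b j⟫_ℂ = if i = j then 1 else 0 :=
  orthonormal_iff_ite.1 b.orthonormal i j

lemma K1 (m : ℤ) (x : H) : ⟪b (some (m + 1)), K b x⟫_ℂ = w m * ⟪b (some m), x⟫_ℂ := by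
  refine (K_sum b x _).unique ?_
  have := hasSum_single (f := fun n : ℤ => (w n : ℂ) * (⟪b (some n), x⟫_ℂ *
    ⟪b (some (m + 1)), b (some (n + 1))⟫_ℂ)) m fun n hn => by simp [ob, hn.symm]
  simpa [ob, b.orthonormal.1] using this

lemma K2 (x : H) : ⟪b none, K b x⟫_ℂ = 0 :=
  (K_sum b x _).unique (by simpa [ob] using hasSum_zero)

lemma bext {x y : H} (h0 : ⟪b none, x⟫_ℂ = ⟪b none, y⟫_ℂ)
    (h : ∀ m, ⟪b (some (m + 1)), x⟫_ℂ = ⟪b (some (m + 1)), y⟫_ℂ) : x = y := by
  refine b.repr.injective (lp.ext (funext fun i => ?_))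
  rw [b.repr_apply_apply, b.repr_apply_apply]
  rcases i with _ | m
  · exact h0
  · simpa using h (m - 1)

lemma K3 (m : ℤ) : K b (b (some m)) = (w m : ℂ) • b (some (m + 1)) :=
  bext b (by simp [K2, inner_smul_right, ob]) fun n => by
    by_cases h : n = m <;> simp [K1, inner_smul_right, ob, h, b.orthonormal.1]

lemma K4 : K b (b none) = 0 := bext b (by simp [K2]) fun n => by simp [K1, ob]

lemma sum_opt {f : Option ℤ → ℝ} (h : Summable fun n => f (some (n + 1))) : Summable f := by
  have h1 : Summable fun n => f (some n) := (Equiv.addRight (1 : ℤ)).summable_iff.1 h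
  refine (Set.Finite.summable_compl_iff (s := {none}) (Set.finite_singleton _)).1 ?_
  let e : ℤ ≃ ({none}ᶜ : Set (Option ℤ)) := Equiv.ofBijective (fun n => ⟨some n, by simp⟩)
    ⟨fun a b h => by simpa using h, by
      rintro ⟨_ | n, h⟩
      · simp at h
      · exact ⟨n, rfl⟩⟩
  exact e.summable_iff.1 h1

lemma trace : TraceClass (1 - star (1 + K b) * (1 + K b)) := by
  have h1 : Summable fun i => ‖K b (b i)‖ := sum_opt <| by
    have : Summable fun n => w (n + 1) := (Equiv.addRight (1 : ℤ)).summable_iff.2 w_sum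
    simpa [K3, norm_smul, b.orthonormal.1, abs_of_pos (w_pos _)] using this
  have h2 : Summable fun i => ‖star (K b) (b i)‖ := sum_opt <| by
    have (m : ℤ) : star (K b) (b (some (m + 1))) = (w m : ℂ) • b (some m) :=
      ext_inner_right ℂ fun x => by
        rw [star_eq_adjoint, adjoint_inner_left, K1, inner_smul_left]; simp
    simpa [this, norm_smul, b.orthonormal.1, abs_of_pos (w_pos _)] using w_sum
  refine tc_of b _ (((h1.add h2).add (h1.mul_left ‖star (K b)‖)).of_nonneg_of_le
    (fun _ => norm_nonneg _) fun i => ?_)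
  have : (1 - star (1 + K b) * (1 + K b)) (b i) =
      -(K b (b i) + star (K b) (b i) + star (K b) (K b (b i))) := by
    have e : 1 - star (1 + K b) * (1 + K b) = -(K b + star (K b) + star (K b) * K b) := by
      rw [star_add, star_one]; noncomm_ring
    rw [e]; rfl
  rw [this, norm_neg]
  exact norm_add₃_le.trans (by gcongr; exact le_opNorm _ _)

lemma bicomm : rankOne ℂ (b none) (b none) ∈ centralizer (centralizer {1 + K b}) := by
  intro X hX
  have h : K b * X = X * K b := by
    have := hX _ rfl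
    rwa [add_mul, mul_add, one_mul, mul_one, add_right_inj] at this
  have h' (x) : K b (X x) = X (K b x) := congrArg (fun B : H →L[ℂ] H => B x) h
  have hw (m) : (w m : ℂ) ≠ 0 := by exact_mod_cast (w_pos m).ne'
  refine ext_on (Submodule.dense_iff_topologicalClosure_eq_top.2 b.dense_span) ?_
  rintro _ ⟨_ | m, rfl⟩
  · refine bext b (by simp [inner_smul_right, b.orthonormal.1]) fun m => ?_
    have := K1 b (m + 1) (X (b none))
    rw [h', K4, map_zero, inner_zero_right] at this
    simpa [inner_smul_right, ob, b.orthonormal.1, hw] using this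
  · have := K2 b (X (b (some (m - 1))))
    rw [h', K3, map_smul, inner_smul_right, sub_add_cancel] at this
    simp [ob, (mul_eq_zero.1 this).resolve_left (hw _)]

lemma res {z : ℂ} (hz : z ∉ spectrum ℂ (1 + K b)) (R : H →L[ℂ] H)
    (hR : R = Ring.inverse (1 + K b - algebraMap ℂ _ z)) :
    ⟪b (some 0), R (b (some 0))⟫_ℂ = ⟪b none, R (b none)⟫_ℂ := by
  have hu : IsUnit (1 + K b - algebraMap ℂ _ z) := by
    rw [← IsUnit.neg_iff, neg_sub]; exact spectrum.notMem_iff.1 hz
  have a1 := Ring.mul_inverse_cancel _ hu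
  rw [← hR] at a1
  have e (y : H) : K b (R y) = y + (z - 1) • R y := by
    have : R y + K b (R y) - z • R y = y := congrArg (fun A : H →L[ℂ] H => A y) a1
    rw [sub_smul, one_smul]
    nth_rewrite 2 [← this]; abel
  have e1 : (z - 1) * ⟪b none, R (b none)⟫_ℂ = -1 := by
    have := K2 b (R (b none))
    rw [e, inner_add_right, inner_smul_right, ob, if_pos rfl] at this
    linear_combination this
  have hμ : z - 1 ≠ 0 := fun h => by simp [h] at e1
  set x := R (b (some 0))
  let y : ℕ → ℂ := fun k => ⟪b (some (-1 - k)), x⟫_ℂ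
  have r (k : ℕ) : (z - 1) * y k = w (-1 - (k + 1 : ℕ)) * y (k + 1) := by
    have := K1 b (-1 - (k + 1 : ℕ)) x
    rw [e, inner_add_right, inner_smul_right, ob, if_neg (by simp; omega), zero_add,
      show (-1 - (k + 1 : ℕ) + 1 : ℤ) = -1 - k by push_cast; ring] at this
    exact this
  obtain ⟨k0, hk0⟩ := exists_pow_lt_of_lt_one (half_pos (norm_pos_iff.2 hμ))
    (by norm_num : (1 / 2 : ℝ) < 1)
  have bd (j : ℕ) : ∀ k ≥ k0, ‖y k‖ ≤ ‖x‖ * (1 / 2) ^ j := by
    induction j with
    | zero => intro k _; simpa [b.orthonormal.1] using norm_inner_le_norm (𝕜 := ℂ) (b _) x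
    | succ j ih =>
      intro k hk
      have h1 := congrArg norm (r k)
      rw [norm_mul, norm_mul, Complex.norm_real, Real.norm_eq_abs, abs_of_pos (w_pos _)] at h1
      have h2 : w (-1 - (k + 1 : ℕ)) ≤ ‖z - 1‖ / 2 :=
        (pow_le_pow_of_le_one (by norm_num) (by norm_num) (by omega)).trans hk0.le
      have h3 := ih (k + 1) (by omega)
      refine le_of_mul_le_mul_left ?_ (norm_pos_iff.2 hμ)
      rw [h1]
      calc _ ≤ ‖z - 1‖ / 2 * (‖x‖ * (1 / 2) ^ j) := by gcongr
        _ = _ := by ring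
  have z0 : y k0 = 0 := norm_le_zero_iff.1 (ge_of_tendsto' (by
    simpa using (tendsto_pow_atTop_nhds_zero_of_lt_one (r := (1 / 2 : ℝ)) (by norm_num)
      (by norm_num)).const_mul ‖x‖) fun j => bd j k0 le_rfl)
  have down (k : ℕ) : y k = 0 → y 0 = 0 := by
    induction k with
    | zero => exact id
    | succ k ih => exact fun h => ih (by simpa [h, hμ] using r k)
  have h0 : ⟪b (some (-1)), x⟫_ℂ = 0 := by simpa [y] using down k0 z0
  have := K1 b (-1) x
  rw [e, h0, inner_add_right, inner_smul_right, ob, if_pos (by simp)] at this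
  refine mul_left_cancel₀ hμ ?_
  rw [e1]
  simp only [neg_add_cancel] at this
  linear_combination this

lemma notres : rankOne ℂ (b none) (b none) ∉ resSpan (1 + K b) := by
  intro h
  have hc : IsClosed {A : H →WOT[ℂ] H | ⟪b (some 0), A (b (some 0))⟫_ℂ = ⟪b none, A (b none)⟫_ℂ} :=
    isClosed_eq (ContinuousLinearMapWOT.continuous_dual_apply _ (innerSL ℂ _))
      (ContinuousLinearMapWOT.continuous_dual_apply _ (innerSL ℂ _))
  refine absurd (hc.closure_subset_iff.2 ?_ h) (by simp [ob, inner_smul_right, b.orthonormal.1])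
  rintro _ ⟨A, hA, rfl⟩
  change ⟪b (some 0), A (b (some 0))⟫_ℂ = ⟪b none, A (b none)⟫_ℂ
  induction hA using Submodule.span_induction with
  | mem R hR => obtain ⟨z, hz, hR⟩ := hR; exact res b hz R hR
  | zero => simp
  | add A B _ _ h1 h2 => simp [inner_add_right, h1, h2]
  | smul c A _ h1 => simp [inner_smul_right, h1]

theorem result : ∃ (H : Type) (_ : NormedAddCommGroup H) (_ : InnerProductSpace ℂ H)
    (_ : CompleteSpace H) (T S : H →L[ℂ] H), TopologicalSpace.SeparableSpace H ∧
    TraceClass (1 - star T * T) ∧ S ∈ centralizer (centralizer {T}) ∧ S ∉ resSpan T := by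
  let b : HilbertBasis (Option ℤ) ℂ (lp (fun _ : Option ℤ => ℂ) 2) := default
  refine ⟨_, _, _, inferInstance, 1 + K b, _, ?_, trace b, bicomm b, notres b⟩
  rw [← TopologicalSpace.isSeparable_univ_iff,
    ← (Submodule.dense_iff_topologicalClosure_eq_top.2 b.dense_span).closure_eq]
  exact ((countable_range b).isSeparable.span).closure

end Pool.Agent.Results.MP_9e58cf_an.Fails
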